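import Mathlib
import Pool.Agent.H.MP_a16b96_lc.A

set_option autoImplicit false

namespace Pool.Agent.H.MP_35f06d_lc

open Set Filter Function Cardinal Ordinal

/-- cov(M): least size of a family of meager subsets of the line covering the line -/
noncomputable def covM : Cardinal.{0} :=
  sInf {c | ∃ F : Set (Set ℝ), (∀ M ∈ F, IsMeagre M) ∧ ⋃₀ F = Set.univ ∧ #F = c}

/-- `κ`-Luzin set -/
def Luzin (κ : Cardinal.{0}) (X : Set ℝ) : Prop :=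
  κ ≤ #X ∧ ∀ M : Set ℝ, IsMeagre M → #(X ∩ M : Set ℝ) < κ

theorem c1 (h : (𝔠 : Cardinal.{0}) = ℵ_ ω₁) : ℵ₁ < (𝔠 : Cardinal.{0}) :=
  h ▸ aleph_lt_aleph.2 (one_lt_omega0.trans omega0_lt_omega_one)

theorem c2 (h : (𝔠 : Cardinal.{0}) = ℵ_ ω₁) : (𝔠 : Cardinal.{0}).ord.cof = ℵ₁ := by
  rw [h, ord_aleph, cof_omega (isSuccLimit_omega 1), cof_omega_one]

theorem bk (h : (𝔠 : Cardinal.{0}) = ℵ_ ω₁) {ι J : Type} (hι : #ι = ℵ₁) (hJ : #J = 𝔠)
    (f : ι → J → ℝ) (hf : ∀ i, Injective (f i)) : ∃ A : ι → Set J, 𝔠 ≤ #(⋃ i, f i '' A i) ∧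
      ∀ T : Set ι, T.Countable → #(⋃ i ∈ T, f i '' A i) < 𝔠 := by
  obtain ⟨_, _, ho⟩ := exists_ord_eq_type_lt J
  obtain ⟨s, s1, s2⟩ := Order.exists_cof_eq J
  rw [← cof_type, ← ho, hJ, c2 h, ← hι] at s2
  obtain ⟨e⟩ := Cardinal.eq.1 s2
  refine ⟨fun i => Iic (e.symm i), not_lt.1 fun h' => ?_, fun T hT => ?_⟩
  · have : ⋃ i, Iic (e.symm i).1 = Set.univ := eq_univ_of_forall fun j => by
      obtain ⟨k, k1, k2⟩ := s1 j
      exact mem_iUnion.2 ⟨e ⟨k, k1⟩, by simpa using k2⟩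
    have h2 := mk_iUnion_le fun i => Iic (e.symm i).1
    rw [this, mk_univ, hJ, hι] at h2
    refine h2.not_gt (mul_lt_of_lt aleph0_le_continuum (c1 h) (lt_of_le_of_lt (ciSup_le'
      fun i => ?_) h'))
    rw [← mk_image_eq (hf i)]
    exact mk_le_mk_of_subset (subset_iUnion (fun i => f i '' Iic (e.symm i).1) i)
  · have := (countable_iff_lt_aleph_one T).1 hT
    exact (mk_biUnion_le _ T).trans_lt (mul_lt_of_lt aleph0_le_continuum (this.trans (c1 h))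
      (iSup_lt_of_lt_cof_ord (c2 h ▸ this) fun i => mk_image_le.trans_lt
        (hJ ▸ mk_Iic_lt _ ho (hJ ▸ aleph0_le_continuum))))

theorem cov_ne : {c | ∃ F : Set (Set ℝ), (∀ M ∈ F, IsMeagre M) ∧ ⋃₀ F = Set.univ ∧
    #F = c}.Nonempty := ⟨_, range singleton, by
  rintro _ ⟨x, rfl⟩
  exact MP_a16b96_lc.cm (countable_singleton x), by simp [iUnion_of_singleton], rfl⟩

end Pool.Agent.H.MP_35f06d_lc
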